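import Pool.Agent.Lib.MP_ee6709_co.Defs
import Pool.Agent.Lib.MP_ee6709_co.Example

/-!
# MP_ee6709_co: only finitely many `m` have `f(m) ≤ ⌊m²/2⌋`

`f m` is the minimum of `|Σ*A|` over all finite abelian groups `G` and all weakly
zero-sum-free `A ⊆ G` with `|A| = m` (see `Defs.lean`). In `m ^ 2 / 2` the division is the
floor division of natural numbers.
-/

namespace Pool.Agent.Results.MP_ee6709_co.ExactForLarge

open Pool.Agent.Lib.MP_ee6709_co

/-- Only finitely many positive integers `m` satisfy `f(m) ≤ ⌊m²/2⌋`; indeed there is `M` such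
that `f(m) = ⌊m²/2⌋ + 1` for every `m ≥ M`. -/
theorem result : {m : ℕ | 0 < m ∧ f m ≤ ((m ^ 2 / 2 : ℕ) : ℕ∞)}.Finite ∧
    ∃ M : ℕ, ∀ m : ℕ, M ≤ m → f m = ((m ^ 2 / 2 + 1 : ℕ) : ℕ∞) :=
  main

end Pool.Agent.Results.MP_ee6709_co.ExactForLarge
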